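import Pool.Agent.Q283.FG.Stm1
import Pool.Agent.Q283.FG.Stm2
import Pool.Agent.Q14.LK.Bas
import Pool.Agent.Q162.LK.HS2

/-!
# Project FG (helper283), job CGE (helper184): the number of the classes
-/

set_option autoImplicit false

namespace Pool.Agent.Q184.FG

open NumberField IsDedekindDomain Finset
open Pool.Agent.Q7.LK Pool.Agent.Q14.LK Pool.Agent.Q283.FG
open Pool.Agent.Q283.LQ (Sm nS)
open Pool.Agent.Q283.FT (U2 LocP)

section

variable {F : Type} [Field F] [NumberField F]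

/-- the real places are finitely many and there are as many homomorphisms to `ℝ` as real places -/
theorem card_realHom : Finite (F →+* ℝ) ∧ InfinitePlace.nrRealPlaces F ≤ Nat.card (F →+* ℝ) := by
  classical
  have hinj : Function.Injective (fun φ : F →+* ℝ => (Complex.ofRealHom.comp φ : F →+* ℂ)) := by
    intro φ ψ h
    ext x
    have h1 : (Complex.ofRealHom.comp φ) x = (Complex.ofRealHom.comp ψ) x := by
      have h2 : (Complex.ofRealHom.comp φ : F →+* ℂ) = Complex.ofRealHom.comp ψ := h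
      rw [h2]
    exact Complex.ofReal_injective h1
  have hfin : Finite (F →+* ℝ) := Finite.of_injective _ hinj
  refine ⟨hfin, ?_⟩
  rw [← InfinitePlace.card_real_embeddings F, ← Nat.card_eq_fintype_card]
  refine Nat.card_le_card_of_injective (fun φ : {φ : F →+* ℂ // ComplexEmbedding.IsReal φ} =>
    φ.2.embedding) ?_
  intro φ ψ h
  refine Subtype.ext (RingHom.ext fun x => ?_)
  have h1 := ComplexEmbedding.IsReal.coe_embedding_apply φ.2 x
  have h2 := ComplexEmbedding.IsReal.coe_embedding_apply ψ.2 x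
  have h3 : φ.2.embedding = ψ.2.embedding := h
  rw [← h1, ← h2, h3]

/-- approximation up to local squares with signs -/
theorem apx_sgn (hBAS : Pool.Agent.Q7.LK.S_BAS) (hAPX : S_APX) (R : Finset (HeightOneSpectrum (𝓞 F)))
    (b : HeightOneSpectrum (𝓞 F) → F) (c : (F →+* ℝ) → F) (hb : ∀ v, b v ≠ 0) (hc : ∀ φ, c φ ≠ 0) :
    ∃ e : F, e ≠ 0 ∧ (∀ v ∈ R, Lpw 2 v (e / b v)) ∧ ∀ φ : F →+* ℝ, 0 < φ (e * c φ) := by
  classical
  have hval : ∀ w : HeightOneSpectrum (𝓞 F), w.valuation F (((2 : ℕ) : F) ^ 2) ≠ 0 := fun w =>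
    (Valuation.ne_zero_iff _).2 (pow_ne_zero _ (Nat.cast_ne_zero.2 two_ne_zero))
  choose N hN using fun w : HeightOneSpectrum (𝓞 F) => Pool.Agent.Q162.LK.exp_lt_of_ne (hval w)
  obtain ⟨e, he, h1, h2⟩ := hAPX F R (∑ w ∈ R, N w) b c hb hc
  refine ⟨e, he, fun v hv => ?_, h2⟩
  refine (hBAS 2 F v).2.2.2.2.2.1 (e / b v) 1 ?_
  rw [one_pow, mul_one]
  refine (h1 v hv).trans (hN v _ ?_)
  exact Finset.single_le_sum (f := N) (fun _ _ => Nat.zero_le _) hv

theorem map_div_pos {φ : F →+* ℝ} {a b : F} (h : 0 < φ (a * b)) : 0 < φ (a / b) := by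
  have hb : b ≠ 0 := by
    rintro rfl
    rw [mul_zero, map_zero] at h
    exact lt_irrefl _ h
  have h1 : φ b ≠ 0 := (map_ne_zero φ).2 hb
  rw [map_mul] at h
  rw [map_div₀]
  have h2 : φ a / φ b = φ a * φ b / (φ b) ^ 2 := by
    field_simp
  rw [h2]
  positivity

theorem nr_div (hBAS : Pool.Agent.Q7.LK.S_BAS) {y : ℕ} {a b : F} (ha : Nr y a) (hb : Nr y b) :
    Nr y (a / b) := by
  refine ⟨nn_div hBAS ha.1 hb.1, fun φ => ?_⟩
  rw [map_div₀]
  exact div_pos (ha.2 φ) (hb.2 φ)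

variable {ζ : F} {y f : ℕ} {u r : Fin f → F} {π : HeightOneSpectrum (𝓞 F) → F}
  {g : (Fin f → ZMod 2) → (Fin f → ZMod 2) → ZMod 2}

theorem cls_div (hBAS : Pool.Agent.Q7.LK.S_BAS) (B : Bs ζ y f u r π g) {a a' : F}
    {x : (Fin f → ZMod 2) × (Fin f → ZMod 2)} (h : Nr y (a * mon r x.1 * mon u x.2))
    (h' : Nr y (a' * mon r x.1 * mon u x.2)) : Nr y (a / a') := by
  have h1 := nr_div hBAS h h'
  have hr := mon_ne B.re x.1
  have hu := mon_ne B.ue x.2
  have ha' : a' ≠ 0 := by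
    rintro rfl
    have := h'.1.1
    rw [zero_mul, zero_mul] at this
    exact this rfl
  have h2 : a * mon r x.1 * mon u x.2 / (a' * mon r x.1 * mon u x.2) = a / a' := by
    field_simp
  rwa [h2] at h1

end

/-- **JOB CGE.** -/
theorem cge (hBAS : Pool.Agent.Q7.LK.S_BAS) (hAPX : Pool.Agent.Q283.FG.S_APX) :
    Pool.Agent.Q283.FG.S_CGE := by
  classical
  intro F _ _ ζ hζ y f u r π g B hfin A R hL 𝓛 hM n hB hR
  have iF : Fintype {v : HeightOneSpectrum (𝓞 F) // Sm y v} := hfin.fintype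
  have iR := (card_realHom (F := F)).1
  have iR2 : Fintype (F →+* ℝ) := Fintype.ofFinite _
  choose Bf hBc hBA hBd using fun v : {v : HeightOneSpectrum (𝓞 F) // Sm y v} => hB v.1 v.2
  choose ca cb hcR hcn using hR
  have hextne : ∀ t : {v : HeightOneSpectrum (𝓞 F) // Sm y v} → F, ∃ t' : HeightOneSpectrum (𝓞 F) → F,
      (∀ w, t w ≠ 0) → (∀ v, t' v.1 = t v) ∧ ∀ w, t' w ≠ 0 := by
    intro t
    refine ⟨fun v => if h : Sm y v then t ⟨v, h⟩ else 1, fun ht => ⟨fun v => dif_pos v.2, fun w => ?_⟩⟩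
    by_cases h : Sm y w
    · simp only [dif_pos h]
      exact ht _
    · simp only [dif_neg h]
      exact one_ne_zero
  -- approximation
  have hap0 : ∀ (t : {v : HeightOneSpectrum (𝓞 F) // Sm y v} → F) (c : (F →+* ℝ) → F), ∃ e : F,
      (∀ v, t v ≠ 0) → (∀ φ, c φ ≠ 0) → e ≠ 0 ∧
      (∀ v : {v : HeightOneSpectrum (𝓞 F) // Sm y v}, Lpw 2 v.1 (e / t v)) ∧
      ∀ φ : F →+* ℝ, 0 < φ (e * c φ) := by
    intro t c
    by_cases ht : ∀ v, t v ≠ 0
    · by_cases hc : ∀ φ, c φ ≠ 0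
      · obtain ⟨t', ht'⟩ := hextne t
        obtain ⟨h1, h2⟩ := ht' ht
        obtain ⟨e, he, h3, h4⟩ := apx_sgn hBAS hAPX hfin.toFinset t' c h2 hc
        refine ⟨e, fun _ _ => ⟨he, fun v => ?_, h4⟩⟩
        have h5 := h3 v.1 (hfin.mem_toFinset.2 v.2)
        rwa [h1] at h5
      · exact ⟨1, fun _ h => absurd h hc⟩
    · exact ⟨1, fun h => absurd h ht⟩
  choose e he using hap0
  -- the signs
  obtain ⟨c1, hc1⟩ : ∃ c1 : ((F →+* ℝ) → Bool) → (F →+* ℝ) → F,
      c1 = fun ε φ => if ε φ = true then ca φ else 1 := ⟨_, rfl⟩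
  obtain ⟨c2, hc2⟩ : ∃ c2 : ((F →+* ℝ) → Bool) → (F →+* ℝ) → F,
      c2 = fun ε φ => if ε φ = true then cb φ else 1 := ⟨_, rfl⟩
  have hc1ne : ∀ ε φ, c1 ε φ ≠ 0 := by
    intro ε φ
    rw [hc1]
    show (if ε φ = true then ca φ else 1) ≠ 0
    split_ifs
    · exact (hL.rne φ _ _ (hcR φ)).1
    · exact one_ne_zero
  have hc2ne : ∀ ε φ, c2 ε φ ≠ 0 := by
    intro ε φ
    rw [hc2]
    show (if ε φ = true then cb φ else 1) ≠ 0
    split_ifs
    · exact (hL.rne φ _ _ (hcR φ)).2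
    · exact one_ne_zero
  have hcRR : ∀ ε φ, R φ (c1 ε φ) (c2 ε φ) := by
    intro ε φ
    rw [hc1, hc2]
    show R φ (if ε φ = true then ca φ else 1) (if ε φ = true then cb φ else 1)
    split_ifs
    · exact hcR φ
    · exact hL.rpos φ 1 1 (by rw [map_one]; exact one_pos) (by rw [map_one]; exact one_pos)
  have hne : ∀ t ∈ Fintype.piFinset Bf, (∀ v, (t v).1 ≠ 0) ∧ ∀ v, (t v).2 ≠ 0 := by
    intro t ht
    exact ⟨fun v => (hL.fin.ne v.1 _ _ v.2 (hBA v _ (Fintype.mem_piFinset.1 ht v))).1,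
      fun v => (hL.fin.ne v.1 _ _ v.2 (hBA v _ (Fintype.mem_piFinset.1 ht v))).2⟩
  have hcl : ∀ z : ({v : HeightOneSpectrum (𝓞 F) // Sm y v} → F × F) × ((F →+* ℝ) → Bool),
      ∃ x x' : (Fin f → ZMod 2) × (Fin f → ZMod 2),
      z.1 ∈ Fintype.piFinset Bf → ((((fun j => (x.2 j, x'.2 j)), fun j => (x.1 j, x'.1 j)) :
        (Fin f → U2) × (Fin f → U2)) ∈ 𝓛) ∧
        Nr y (e (fun v => (z.1 v).1) (c1 z.2) * mon r x.1 * mon u x.2) ∧
        Nr y (e (fun v => (z.1 v).2) (c2 z.2) * mon r x'.1 * mon u x'.2) := by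
    rintro ⟨t, ε⟩
    by_cases ht : t ∈ Fintype.piFinset Bf
    · obtain ⟨he0, he1, he2⟩ := he (fun v => (t v).1) (c1 ε) (hne t ht).1 (hc1ne ε)
      obtain ⟨he0', he1', he2'⟩ := he (fun v => (t v).2) (c2 ε) (hne t ht).2 (hc2ne ε)
      obtain ⟨x, hx, -⟩ := B.cls _ he0
      obtain ⟨x', hx', -⟩ := B.cls _ he0'
      refine ⟨x, x', fun _ => ⟨(hM _ _ x x' he0 he0' hx hx').2 ⟨fun v hv => ?_, fun φ => ?_⟩, hx, hx'⟩⟩
      · have h1 := hBA ⟨v, hv⟩ _ (Fintype.mem_piFinset.1 ht ⟨v, hv⟩)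
        have h2 := hL.fin.mul v _ _ _ _ hv h1 (hL.fin.pow v _ _ hv (he1 ⟨v, hv⟩) (he1' ⟨v, hv⟩))
        have h0 := (hne t ht).1 ⟨v, hv⟩
        have h0' := (hne t ht).2 ⟨v, hv⟩
        have h3 : (t ⟨v, hv⟩).1 * (e (fun v => (t v).1) (c1 ε) / (t ⟨v, hv⟩).1) =
            e (fun v => (t v).1) (c1 ε) := by
          field_simp
        have h3' : (t ⟨v, hv⟩).2 * (e (fun v => (t v).2) (c2 ε) / (t ⟨v, hv⟩).2) =
            e (fun v => (t v).2) (c2 ε) := by
          field_simp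
        rwa [h3, h3'] at h2
      · have h1 := hcRR ε φ
        have h2 := hL.rmul φ _ _ _ _ h1 (hL.rpos φ _ _ (map_div_pos (he2 φ)) (map_div_pos (he2' φ)))
        have h0 := hc1ne ε φ
        have h0' := hc2ne ε φ
        have h3 : c1 ε φ * (e (fun v => (t v).1) (c1 ε) / c1 ε φ) = e (fun v => (t v).1) (c1 ε) := by
          field_simp
        have h3' : c2 ε φ * (e (fun v => (t v).2) (c2 ε) / c2 ε φ) = e (fun v => (t v).2) (c2 ε) := by
          field_simp
        rwa [h3, h3'] at h2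
    · exact ⟨0, 0, fun h => absurd h ht⟩
  choose x x' hx using hcl
  -- two families with the same class
  have hone : ∀ (s s' : {v : HeightOneSpectrum (𝓞 F) // Sm y v} → F) (c c' : (F →+* ℝ) → F)
      (z : (Fin f → ZMod 2) × (Fin f → ZMod 2)),
      (∀ v, s v ≠ 0) → (∀ v, s' v ≠ 0) → (∀ φ, c φ ≠ 0) → (∀ φ, c' φ ≠ 0) →
      Nr y (e s c * mon r z.1 * mon u z.2) → Nr y (e s' c' * mon r z.1 * mon u z.2) →
      (∀ v, Lpw 2 v.1 (s v / s' v)) ∧ ∀ φ : F →+* ℝ, 0 < φ (c φ * c' φ) := by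
    intro s s' c c' z hs hs' hc hc' h1 h2
    have h3 := cls_div hBAS B h1 h2
    obtain ⟨n1, a1, b1⟩ := he s c hs hc
    obtain ⟨n2, a2, b2⟩ := he s' c' hs' hc'
    refine ⟨fun v => ?_, fun φ => ?_⟩
    · have h4 := a1 v
      have h5 := a2 v
      have h6 := lpw_mul hBAS (lpw_mul hBAS (h3.1.2 v.1 v.2) (lpw_inv hBAS h4)) h5
      have n3 := hs v
      have n4 := hs' v
      have h7 : e s c / e s' c' * (e s c / s v)⁻¹ * (e s' c' / s' v) = s v / s' v := by
        field_simp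
      rwa [h7] at h6
    · have h4 := b1 φ
      have h5 := b2 φ
      have h6 := h3.2 φ
      rw [map_mul] at h4 h5 ⊢
      rw [map_div₀] at h6
      have h7 := mul_pos (mul_pos h4 h5) h6
      have n3 : φ (e s' c') ≠ 0 := (map_ne_zero φ).2 n2
      have n4 : φ (e s c) ≠ 0 := (map_ne_zero φ).2 n1
      have h8 : φ (e s c) * φ (c φ) * (φ (e s' c') * φ (c' φ)) * (φ (e s c) / φ (e s' c')) =
          (φ (e s c)) ^ 2 * (φ (c φ) * φ (c' φ)) := by
        field_simp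
      rw [h8] at h7
      exact (pos_iff_pos_of_mul_pos h7).1 (by positivity)
  have hinj : ∀ t ∈ Fintype.piFinset Bf, ∀ t' ∈ Fintype.piFinset Bf, ∀ ε ε', x (t, ε) = x (t', ε') →
      x' (t, ε) = x' (t', ε') → t = t' ∧ ε = ε' := by
    intro t ht t' ht' ε ε' hxx hxx'
    obtain ⟨-, a1, a2⟩ := hx (t, ε) ht
    obtain ⟨-, b1, b2⟩ := hx (t', ε') ht'
    rw [← hxx] at b1
    rw [← hxx'] at b2
    obtain ⟨c1', d1⟩ := hone _ _ _ _ _ (hne t ht).1 (hne t' ht').1 (hc1ne ε) (hc1ne ε') a1 b1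
    obtain ⟨c2', d2⟩ := hone _ _ _ _ _ (hne t ht).2 (hne t' ht').2 (hc2ne ε) (hc2ne ε') a2 b2
    refine ⟨?_, ?_⟩
    · funext v
      by_contra hn
      exact hBd v (t v) (Fintype.mem_piFinset.1 ht v) (t' v) (Fintype.mem_piFinset.1 ht' v) hn
        ⟨c1' v, c2' v⟩
    · funext φ
      have e1 := d1 φ
      have e2 := d2 φ
      rw [hc1] at e1
      rw [hc2] at e2
      simp only at e1 e2
      cases h1 : ε φ <;> cases h2 : ε' φ
      · rfl
      · exfalso
        rw [h1, h2] at e1 e2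
        simp only [Bool.false_eq_true, if_false, if_true, one_mul] at e1 e2
        exact hcn φ ⟨e1, e2⟩
      · exfalso
        rw [h1, h2] at e1 e2
        simp only [Bool.false_eq_true, if_false, if_true, mul_one] at e1 e2
        exact hcn φ ⟨e1, e2⟩
      · rfl
  have hcard : (Fintype.piFinset Bf ×ˢ (Finset.univ : Finset ((F →+* ℝ) → Bool))).card ≤ Nat.card 𝓛 := by
    rw [← Nat.card_eq_finsetCard]
    have hmem : ∀ z : ↥(Fintype.piFinset Bf ×ˢ (Finset.univ : Finset ((F →+* ℝ) → Bool))),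
        z.1.1 ∈ Fintype.piFinset Bf := fun z => (Finset.mem_product.1 z.2).1
    refine Nat.card_le_card_of_injective
      (fun z : ↥(Fintype.piFinset Bf ×ˢ (Finset.univ : Finset ((F →+* ℝ) → Bool))) =>
      (⟨((fun j => ((x z.1).2 j, (x' z.1).2 j)), fun j => ((x z.1).1 j, (x' z.1).1 j)),
        (hx z.1 (hmem z)).1⟩ : 𝓛)) ?_
    intro z z' h
    have h1 := congrArg Subtype.val h
    have h2 := (Prod.ext_iff.1 h1).1
    have h3 := (Prod.ext_iff.1 h1).2
    have h4 : x z.1 = x z'.1 := by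
      refine Prod.ext (funext fun j => ?_) (funext fun j => ?_)
      · exact (Prod.ext_iff.1 (congrFun h3 j)).1
      · exact (Prod.ext_iff.1 (congrFun h2 j)).1
    have h5 : x' z.1 = x' z'.1 := by
      refine Prod.ext (funext fun j => ?_) (funext fun j => ?_)
      · exact (Prod.ext_iff.1 (congrFun h3 j)).2
      · exact (Prod.ext_iff.1 (congrFun h2 j)).2
    have h6 := hinj z.1.1 (hmem z) z'.1.1 (hmem z') z.1.2 z'.1.2 h4 h5
    exact Subtype.ext (Prod.ext h6.1 h6.2)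
  refine le_trans ?_ hcard
  rw [Finset.card_product, Fintype.card_piFinset, pow_add, finsum_eq_sum_of_fintype,
    ← Finset.prod_pow_eq_pow_sum, Finset.card_univ, Fintype.card_fun, Fintype.card_bool]
  refine Nat.mul_le_mul (Finset.prod_le_prod (fun v _ => Nat.zero_le _) fun v _ => hBc v) ?_
  refine Nat.pow_le_pow_right (by norm_num) ?_
  rw [← Nat.card_eq_fintype_card]
  exact (card_realHom (F := F)).2

end Pool.Agent.Q184.FG
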